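import Mathlib
import Pool.Agent.Y295.HH.B

set_option autoImplicit false

/-!
# Universal Hölder changes of variable

Every continuous function on the circle has a Hölder change of variable after which its Fourier
coefficients are `p`-summable, `p > 1` (starting result `HolderEllP`, the answer to Q1). We show much
more: the change of variable can be chosen depending on the modulus of continuity only.

* For every `β < 1` there are a Hölder exponent `α > 0` and a constant `C`, and for every modulus of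
  continuity `ω` there is ONE homeomorphism `h` of the circle, Hölder of order `α` with constant
  `40`, such that for all Banach spaces `X` and ALL continuous functions `f` with values in `X` and
  with modulus of continuity at most `L ω` the coefficients of `f ∘ h` are at most
  `C (L + ‖f‖) |n|^(-β)`.
* One `h` serves all the functions of a given compact set, and all the functions of a given
  `σ`-compact set (for instance of a sequence) of functions with values in a Banach space.
* For every `p > 1` there is `α > 0` such that in all these cases there is one homeomorphism, Hölder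
  of order `α`, for which the coefficients of all the functions `f ∘ h` are `p`-summable.

(A single `h` cannot serve all continuous functions, since `f ↦ f ∘ h` is a bijection of `C(𝕋)`.)
-/

namespace Pool.Agent.Results.MP_fe2450_an.UniversalHolder

open Filter Topology

/-- `h` is Hölder of order `α` with constant `40`. -/
def IsHolder (α : ℝ) (h : UnitAddCircle ≃ₜ UnitAddCircle) : Prop :=
  ∀ x y : UnitAddCircle, dist (h x) (h y) ≤ 40 * dist x y ^ α

/-- The Fourier coefficients of `f ∘ h` are `p`-summable. -/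
def Good {X : Type} [NormedAddCommGroup X] [NormedSpace ℂ X] (p : ℝ)
    (h : UnitAddCircle ≃ₜ UnitAddCircle) (f : UnitAddCircle → X) : Prop :=
  Summable fun n : ℤ => ‖fourierCoeff (fun x : UnitAddCircle => f (h x)) n‖ ^ p

lemma summ {X : Type} [NormedAddCommGroup X] [NormedSpace ℂ X] {p β D : ℝ} (hp : 1 < p)
    (hβp : 1 < β * p) (g : UnitAddCircle → X)
    (hg : ∀ n : ℤ, n ≠ 0 → ‖fourierCoeff g n‖ ≤ D * |(n : ℝ)| ^ (-β)) :
    Summable fun n : ℤ => ‖fourierCoeff g n‖ ^ p := by
  have hD0 : 0 ≤ D := by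
    have h1 := (norm_nonneg _).trans (hg 1 one_ne_zero)
    simpa using h1
  have hsum : Summable (fun n : ℤ => D ^ p * |(n : ℝ)| ^ (-(β * p))) :=
    (Real.summable_abs_int_rpow hβp).mul_left _
  refine Summable.of_norm_bounded_eventually hsum ?_
  have : ∀ᶠ n : ℤ in cofinite, n ≠ 0 := by
    rw [eventually_cofinite]
    simp
  filter_upwards [this] with n hn
  rw [Real.norm_eq_abs, abs_of_nonneg (by positivity)]
  refine (Real.rpow_le_rpow (norm_nonneg _) (hg n hn) (by linarith)).trans (le_of_eq ?_)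
  rw [Real.mul_rpow hD0 (by positivity), ← Real.rpow_mul (abs_nonneg _)]
  congr 2
  ring

/-- **Theorem.** (A) For every `β` in `(0, 1)` there are `α` in `(0, 1]` and `C > 0` such that:
(A1) for every `ω` with `ω t → 0` as `t → 0+` there is one homeomorphism `h` of the circle, Hölder of
order `α` with constant `40`, such that `‖(f ∘ h)^(n)‖ ≤ C (L + ‖f‖) |n|^(-β)`, `n ≠ 0`, for all
Banach spaces `X`, all `L > 0` and all continuous `f` with values in `X` and modulus of continuity at
most `L ω`; (A2) for every compact set `K` of continuous functions with values in a Banach space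
there is one such `h` with `‖(f ∘ h)^(n)‖ ≤ C (1 + ‖f‖) |n|^(-β)` for all `f` in `K`; (A3) for every
`σ`-compact set there is one such `h` with `‖(f ∘ h)^(n)‖ = O(|n|^(-β))` for all `f` in the set.

(B) For every `p > 1` there is `α` in `(0, 1]` such that: (B1) for every `ω` as above there is one
homeomorphism `h`, Hölder of order `α`, with `p`-summable coefficients of `f ∘ h` for all `X` and all
`f` with modulus of continuity `O(ω)`; (B2) the same for all `f` in a `σ`-compact set; (B3) every
continuous real function has such an `h` (the answer to the question). -/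
theorem result :
    (∀ β : ℝ, 0 < β → β < 1 → ∃ α C : ℝ, 0 < α ∧ α ≤ 1 ∧ 0 < C ∧
      (∀ ω : ℝ → ℝ, Tendsto ω (𝓝[>] 0) (𝓝 0) → ∃ h : UnitAddCircle ≃ₜ UnitAddCircle, IsHolder α h ∧
        ∀ (X : Type) [NormedAddCommGroup X] [NormedSpace ℂ X] [CompleteSpace X]
          (f : C(UnitAddCircle, X)) (L : ℝ), 0 < L →
          (∀ x y, x ≠ y → ‖f x - f y‖ ≤ L * ω (dist x y)) → ∀ n : ℤ, n ≠ 0 →
          ‖fourierCoeff (fun x : UnitAddCircle => f (h x)) n‖ ≤ C * (L + ‖f‖) * |(n : ℝ)| ^ (-β)) ∧
      (∀ (X : Type) [NormedAddCommGroup X] [NormedSpace ℂ X] [CompleteSpace X]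
        (K : Set C(UnitAddCircle, X)), IsCompact K → ∃ h : UnitAddCircle ≃ₜ UnitAddCircle,
          IsHolder α h ∧ ∀ f ∈ K, ∀ n : ℤ, n ≠ 0 →
          ‖fourierCoeff (fun x : UnitAddCircle => f (h x)) n‖ ≤ C * (1 + ‖f‖) * |(n : ℝ)| ^ (-β)) ∧
      (∀ (X : Type) [NormedAddCommGroup X] [NormedSpace ℂ X] [CompleteSpace X]
        (K : Set C(UnitAddCircle, X)), IsSigmaCompact K → ∃ h : UnitAddCircle ≃ₜ UnitAddCircle,
          IsHolder α h ∧ ∀ f ∈ K, ∃ A : ℝ, ∀ n : ℤ, n ≠ 0 →
          ‖fourierCoeff (fun x : UnitAddCircle => f (h x)) n‖ ≤ A * |(n : ℝ)| ^ (-β))) ∧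
    (∀ p : ℝ, 1 < p → ∃ α : ℝ, 0 < α ∧ α ≤ 1 ∧
      (∀ ω : ℝ → ℝ, Tendsto ω (𝓝[>] 0) (𝓝 0) → ∃ h : UnitAddCircle ≃ₜ UnitAddCircle, IsHolder α h ∧
        ∀ (X : Type) [NormedAddCommGroup X] [NormedSpace ℂ X] [CompleteSpace X]
          (f : C(UnitAddCircle, X)) (L : ℝ), 0 < L →
          (∀ x y, x ≠ y → ‖f x - f y‖ ≤ L * ω (dist x y)) → Good p h f) ∧
      (∀ (X : Type) [NormedAddCommGroup X] [NormedSpace ℂ X] [CompleteSpace X]
        (K : Set C(UnitAddCircle, X)), IsSigmaCompact K → ∃ h : UnitAddCircle ≃ₜ UnitAddCircle,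
          IsHolder α h ∧ ∀ f ∈ K, Good p h f) ∧
      (∀ f : C(UnitAddCircle, ℝ), ∃ h : UnitAddCircle ≃ₜ UnitAddCircle, IsHolder α h ∧
        Good p h fun x : UnitAddCircle => ((f x : ℝ) : ℂ))) := by
  constructor
  · intro β hβ0 hβ1
    obtain ⟨α, C, hα, hα1, hC, h1, h2⟩ := Pool.Agent.Y295.HH.modulus hβ0 hβ1
    refine ⟨α, C, hα, hα1, hC, h1, ?_, ?_⟩
    · intro X _ _ _ K hK
      obtain ⟨h, hh, h3⟩ := h2 X (fun _ => K) (fun _ => hK)
      obtain ⟨A, -, hA1, hA⟩ := h3 0
      refine ⟨h, hh, fun f hf n hn => ?_⟩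
      have h4 := hA f hf n hn
      rwa [hA1 rfl] at h4
    · rintro X _ _ _ K ⟨Kj, hKj, rfl⟩
      obtain ⟨h, hh, h3⟩ := h2 X Kj hKj
      refine ⟨h, hh, fun f hf => ?_⟩
      obtain ⟨j, hj⟩ := Set.mem_iUnion.1 hf
      obtain ⟨A, -, -, hA⟩ := h3 j
      exact ⟨C * (A + ‖f‖), fun n hn => hA f hj n hn⟩
  · intro p hp
    have hp0 : 0 < p := by linarith
    set β : ℝ := (1 / p + 1) / 2 with hβ
    have h1p : 1 / p < 1 := by rw [div_lt_one hp0]; exact hp
    have h0p : 0 < 1 / p := by positivity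
    have hβ1 : β < 1 := by rw [hβ]; linarith
    have hβ0 : 0 < β := by rw [hβ]; linarith
    have hβp : 1 < β * p := by
      rw [hβ]
      have : 1 / p * p = 1 := by field_simp
      nlinarith
    obtain ⟨α, C, hα, hα1, hC, h1, h2⟩ := Pool.Agent.Y295.HH.modulus hβ0 hβ1
    have hsig : ∀ (X : Type) [NormedAddCommGroup X] [NormedSpace ℂ X] [CompleteSpace X]
        (K : Set C(UnitAddCircle, X)), IsSigmaCompact K → ∃ h : UnitAddCircle ≃ₜ UnitAddCircle,
          IsHolder α h ∧ ∀ f ∈ K, Good p h f := by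
      rintro X _ _ _ K ⟨Kj, hKj, rfl⟩
      obtain ⟨h, hh, h3⟩ := h2 X Kj hKj
      refine ⟨h, hh, fun f hf => ?_⟩
      obtain ⟨j, hj⟩ := Set.mem_iUnion.1 hf
      obtain ⟨A, -, -, hA⟩ := h3 j
      exact summ hp hβp _ fun n hn => hA f hj n hn
    refine ⟨α, hα, hα1, ?_, hsig, ?_⟩
    · intro ω hω
      obtain ⟨h, hh, h3⟩ := h1 ω hω
      exact ⟨h, hh, fun X _ _ _ f L hL hf => summ hp hβp _ fun n hn => h3 X f L hL hf n hn⟩
    · intro f
      set g : C(UnitAddCircle, ℂ) := ⟨fun x => ((f x : ℝ) : ℂ), by fun_prop⟩ with hg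
      obtain ⟨h, hh, h3⟩ := hsig ℂ {g} isCompact_singleton.isSigmaCompact
      exact ⟨h, hh, h3 g rfl⟩

end Pool.Agent.Results.MP_fe2450_an.UniversalHolder
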